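import Mathlib
import Pool.Agent.Helper398.EEFinal
import Pool.Agent.Helper398.Bridge

/-!
# Subset sums of zero-sum-free sets in arbitrary (also infinite) abelian groups

A finite zero-sum-free subset of an abelian group is mapped, by finitely many characters with values
in `ℚ / ℤ`, injectively onto a zero-sum-free subset of a finite group with at most as many sums.
-/

set_option autoImplicit false

open Finset Pool.Agent.Helper398

namespace Pool.Agent.Y99.ZS

universe u

theorem torsion_circle (x : AddCircle (1 : ℚ)) : ∃ n : ℕ, 0 < n ∧ n • x = 0 := by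
  obtain ⟨q, rfl⟩ := QuotientAddGroup.mk_surjective x
  refine ⟨q.den, q.den_pos, ?_⟩
  change q.den • ((q : ℚ) : AddCircle (1 : ℚ)) = 0
  rw [← AddCircle.coe_nsmul, AddCircle.coe_eq_zero_iff]
  refine ⟨q.num, ?_⟩
  rw [zsmul_eq_mul, mul_one, nsmul_eq_mul, mul_comm, Rat.mul_den_eq_num]

theorem torsion_pi {n : ℕ} (x : Fin n → AddCircle (1 : ℚ)) : ∃ m : ℕ, 0 < m ∧ m • x = 0 := by
  choose k hk0 hk using fun i => torsion_circle (x i)
  refine ⟨∏ i, k i, Finset.prod_pos fun i _ => hk0 i, ?_⟩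
  funext i
  rw [Pi.smul_apply, Pi.zero_apply, ← Finset.prod_erase_mul _ _ (Finset.mem_univ i), mul_smul, hk,
    smul_zero]

/-- **Exact lower bound in all abelian groups.** Every zero-sum-free set `A` of large cardinality in
any abelian group has at least `⌊|A|²/2⌋ + 2` subset sums (the empty sum included). -/
theorem exact_all : ∃ M : ℕ, ∀ (G : Type u) [AddCommGroup G] [DecidableEq G] (A : Finset G),
    ZSF A → M ≤ A.card → A.card ^ 2 / 2 + 2 ≤ A.subsetSum.card := by
  obtain ⟨M, hM⟩ := main_exact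
  refine ⟨M, ?_⟩
  intro G _ _ A hZ hA
  classical
  -- the finite set of the elements to be detected
  obtain ⟨D, hD⟩ : ∃ D : Finset G,
    D = (A.subsetSum ∪ (A ×ˢ A).image (fun p => p.1 - p.2)).erase 0 := ⟨_, rfl⟩
  have h1 : ∀ d : D, ∃ c : CharacterModule G, c d.1 ≠ 0 := by
    intro d
    have hd : (d : G) ∈ (A.subsetSum ∪ (A ×ˢ A).image (fun p => p.1 - p.2)).erase 0 := by
      rw [← hD]; exact d.2
    exact CharacterModule.exists_character_apply_ne_zero_of_ne_zero (Finset.ne_of_mem_erase hd)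
  choose c hc using h1
  let e := D.equivFin
  let φ : G →+ (Fin D.card → AddCircle (1 : ℚ)) :=
    { toFun := fun g i => c (e.symm i) g
      map_zero' := by
        funext i
        exact map_zero (c (e.symm i))
      map_add' := fun a b => by
        funext i
        exact map_add (c (e.symm i)) a b }
  have hφ : ∀ d ∈ D, φ d ≠ 0 := by
    intro d hd h
    have h2 := congrFun h (e ⟨d, hd⟩)
    change c (e.symm (e ⟨d, hd⟩)) d = 0 at h2
    rw [Equiv.symm_apply_apply] at h2
    exact hc ⟨d, hd⟩ h2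
  have hinj : Set.InjOn φ (A : Set G) := by
    intro a ha b hb hab
    by_contra hne
    apply hφ (a - b)
    · rw [hD, Finset.mem_erase, Finset.mem_union, Finset.mem_image]
      exact ⟨sub_ne_zero.2 hne, Or.inr ⟨(a, b), Finset.mem_product.2 ⟨ha, hb⟩, rfl⟩⟩
    · rw [map_sub, hab, sub_self]
  obtain ⟨A₁, hA₁⟩ : ∃ A₁ : Finset (Fin D.card → AddCircle (1 : ℚ)), A₁ = A.image φ := ⟨_, rfl⟩
  have hcard : A₁.card = A.card := by
    rw [hA₁]
    exact Finset.card_image_of_injOn hinj
  -- subsets of the image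
  have hsub : ∀ B ⊆ A₁, ∃ C ⊆ A, B = C.image φ ∧ ∑ b ∈ B, b = φ (∑ a ∈ C, a) := by
    intro B hB
    rw [hA₁, Finset.subset_image_iff] at hB
    obtain ⟨C, hC, rfl⟩ := hB
    refine ⟨C, by exact_mod_cast hC, rfl, ?_⟩
    rw [Finset.sum_image (fun x hx y hy h => hinj (hC hx) (hC hy) h), map_sum]
  have hZ1 : ZSF A₁ := by
    intro B hB hne h0
    obtain ⟨C, hC, rfl, hs⟩ := hsub B hB
    rw [hs] at h0
    have hCne : C.Nonempty := Finset.image_nonempty.1 hne
    refine hφ _ ?_ h0
    rw [hD, Finset.mem_erase, Finset.mem_union]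
    exact ⟨hZ C hC hCne, Or.inl (Finset.mem_subsetSum_iff.2 ⟨C, hC, rfl⟩)⟩
  obtain ⟨K, hK⟩ : ∃ K : AddSubgroup (Fin D.card → AddCircle (1 : ℚ)),
    K = AddSubgroup.closure (A₁ : Set (Fin D.card → AddCircle (1 : ℚ))) := ⟨_, rfl⟩
  have hfg : AddGroup.FG K := by
    rw [hK]
    exact (AddGroup.fg_iff_addSubgroup_fg _).2 ⟨A₁, rfl⟩
  have hfin : Finite K := by
    apply AddCommGroup.finite_of_fg_isAddTorsion
    intro x
    obtain ⟨m, hm0, hm⟩ := torsion_pi (x : Fin D.card → AddCircle (1 : ℚ))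
    rw [isOfFinAddOrder_iff_nsmul_eq_zero]
    exact ⟨m, hm0, Subtype.ext hm⟩
  have hcK : (toSub K A₁).card = A.card := by
    rw [card_toSub, hK, inSub_closure, hcard]
  have h2 := hM K (toSub K A₁) (ZSF_toSub _ _ hZ1) (by rw [hcK]; exact hA)
  rw [hcK] at h2
  refine h2.trans ?_
  have h3 : (toSub K A₁).subsetSum.card ≤ A₁.subsetSum.card := by
    apply Finset.card_le_card_of_injOn (fun x : K => (x : Fin D.card → AddCircle (1 : ℚ)))
    · intro x hx
      rw [Finset.mem_coe, Finset.mem_subsetSum_iff] at hx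
      obtain ⟨B, hB, rfl⟩ := hx
      rw [Finset.mem_coe, Finset.mem_subsetSum_iff]
      refine ⟨B.map (Function.Embedding.subtype _), ?_, (sum_coe_sub _ B).symm⟩
      intro y hy
      rw [Finset.mem_map] at hy
      obtain ⟨z, hz, rfl⟩ := hy
      exact (mem_toSub _ _ _).1 (hB hz)
    · intro x _ y _ hxy
      exact Subtype.ext hxy
  have h4 : A₁.subsetSum ⊆ A.subsetSum.image φ := by
    intro s hs
    rw [Finset.mem_subsetSum_iff] at hs
    obtain ⟨B, hB, rfl⟩ := hs
    obtain ⟨C, hC, -, hs⟩ := hsub B hB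
    rw [hs]
    exact Finset.mem_image_of_mem _ (Finset.mem_subsetSum_iff.2 ⟨C, hC, rfl⟩)
  exact h3.trans ((Finset.card_le_card h4).trans Finset.card_image_le)

/-- Counting nonempty subset sums from all subset sums, in any abelian group. -/
theorem ncard_all {G : Type u} [AddCommGroup G] [DecidableEq G] (A : Finset G)
    (T : Set G) (hT : ∀ s, s ∈ T ↔ ∃ B : Finset G, B ⊆ A ∧ B.Nonempty ∧ ∑ b ∈ B, b = s)
    (h0 : (0 : G) ∉ T) : T.Finite ∧ T.ncard + 1 = A.subsetSum.card := by
  have h1 : (A.subsetSum : Set G) = insert 0 T := by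
    ext s
    rw [Finset.mem_coe, Finset.mem_subsetSum_iff, Set.mem_insert_iff, hT]
    constructor
    · rintro ⟨B, hB, rfl⟩
      by_cases hne : B.Nonempty
      · exact Or.inr ⟨B, hB, hne, rfl⟩
      · rw [Finset.not_nonempty_iff_eq_empty] at hne
        subst hne
        exact Or.inl Finset.sum_empty
    · rintro (rfl | ⟨B, hB, -, rfl⟩)
      · exact ⟨∅, Finset.empty_subset _, Finset.sum_empty⟩
      · exact ⟨B, hB, rfl⟩
  have hf : T.Finite := by
    refine Set.Finite.subset (A.subsetSum.finite_toSet) ?_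
    rw [h1]
    exact Set.subset_insert _ _
  refine ⟨hf, ?_⟩
  rw [← Set.ncard_coe_finset, h1, Set.ncard_insert_of_notMem h0 hf]

/-- The lower bound for the number of nonempty subset sums. -/
theorem exact_ncard : ∃ M : ℕ, ∀ (G : Type u) [AddCommGroup G] (A : Finset G) (T : Set G),
    (∀ s, s ∈ T ↔ ∃ B : Finset G, B ⊆ A ∧ B.Nonempty ∧ ∑ b ∈ B, b = s) → (0 : G) ∉ T →
    M ≤ A.card → A.card ^ 2 / 2 + 1 ≤ T.ncard := by
  classical
  obtain ⟨M, hM⟩ := exact_all.{u}
  refine ⟨M, ?_⟩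
  intro G _ A T hT h0 hA
  have h1 := hM G A (fun B hB hne hs => h0 ((hT 0).2 ⟨B, hB, hne, hs⟩)) hA
  have h2 := (ncard_all A T hT h0).2
  omega

end Pool.Agent.Y99.ZS
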